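import Pool.Agent.KS6_64.CY.Cyc
import Pool.Graph.R_pool_sql_team_39128cda.H.MP_99db3a_nt.B

/-!
# The base case: `5 · 177` and `7 · 177`
-/

set_option autoImplicit false

namespace Pool.Agent.KS6_64.CY

open Filter Topology Polynomial Pool.Agent.H.MP_99db3a_nt

theorem L_eq (x : ℝ) : gg (21 * 59) x = L x := by
  have h := QL x
  have hP : P (21 * 59) x ≠ 0 := (P_pos (by norm_num) x).ne'
  unfold gg
  rw [div_eq_iff hP]
  exact h

theorem up_base : UP (gg (21 * 59)) (gg' (21 * 59)) 5 := by
  classical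
  have hm : 2 < 21 * 59 := by norm_num
  have hL' : ∀ x, gg' (21 * 59) x = L' x := by
    intro x
    have h1 := gg_der hm x
    have h2 : gg (21 * 59) = L := funext L_eq
    rw [h2] at h1
    exact h1.unique (dL x)
  have hQ : ∀ x, x ≠ 0 → gg (21 * 59) x = 0 → ∃ j < 5, I j x := by
    intro x hx h0
    have h1 := QL x
    rw [L_eq] at h0
    rw [h0, zero_mul] at h1
    have h2 := (mul_eq_zero.1 h1).resolve_left hx
    have h := (key 21 (by norm_num) x).2
    rw [h2] at h
    simp only [ep, eq'] at h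
    exact loc x (by linarith)
  have cv : ∀ j x y z, I j x → I j y → x < z → z < y → I j z := by
    intro j x y z hx hy a b
    rcases j with _ | _ | _ | _ | j <;> exact ⟨by linarith [hx.1], by linarith [hy.2]⟩
  have uq : ∀ j x y, I j x → I j y → L x = 0 → L y = 0 → ¬ x < y := by
    intro j x y hx hy a b h
    obtain ⟨c, hc, e⟩ := exists_hasDerivAt_eq_zero h
      (fun z _ => (dL z).continuousAt.continuousWithinAt) (a.trans b.symm) fun z _ => dL z
    exact (der j c (cv j x y c hx hy hc.1 hc.2)).2 e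
  choose! f f1 f2 using hQ
  have hmaps : Set.MapsTo f {x | x ≠ 0 ∧ gg (21 * 59) x = 0} (Finset.range 5 : Finset ℕ) := by
    intro x hx
    exact Finset.mem_coe.2 (Finset.mem_range.2 (f1 x hx.1 hx.2))
  have hinj : Set.InjOn f {x | x ≠ 0 ∧ gg (21 * 59) x = 0} := by
    intro x hx y hy e
    have a := f2 x hx.1 hx.2
    have b := f2 y hy.1 hy.2
    rw [e] at a
    have hx' : L x = 0 := by rw [← L_eq]; exact hx.2
    have hy' : L y = 0 := by rw [← L_eq]; exact hy.2
    exact le_antisymm (not_lt.1 (uq _ y x b a hy' hx')) (not_lt.1 (uq _ x y a b hx' hy'))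
  refine ⟨gg_der hm, gg'_cont hm, gg_zero _, ?_, ⟨29, 59 * 30, by norm_num, ?_⟩,
    Set.Finite.of_injOn hmaps hinj (Finset.finite_toSet _), ?_, ?_⟩
  · rw [hL']
    simp [L', r, p]
  · intro x hx
    rw [L_eq]
    have hg : ∀ y : ℝ, 1 ≤ |y| → 1 ≤ g y ∧ g y ≤ 30 := by
      intro y hy
      have hp := p0 y
      have h1 : 0 ≤ y * q y - p y := by
        rcases le_abs'.1 hy with h | h
        · exact e1n y h
        · exact e1p y h
      have h2 : 0 ≤ 30 * p y - y * q y := by
        rcases le_abs'.1 hy with h | h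
        · exact e2n y h
        · exact e2p y h
      unfold g
      constructor
      · rw [le_div_iff₀ hp]; linarith
      · rw [div_le_iff₀ hp]; linarith
    have h1 := hg x hx
    have h2 := hg (x ^ 59) (by rw [abs_pow]; exact one_le_pow₀ hx)
    unfold L
    constructor <;> linarith [h1.1, h1.2, h2.1, h2.2]
  · have := Set.ncard_le_ncard_of_injOn f hmaps hinj (Finset.finite_toSet _)
    rwa [Set.ncard_coe_finset, Finset.card_range] at this
  · intro x hx h0
    rw [hL']
    exact (der (f x) x (f2 x hx h0)).2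

theorem sgD (x s : ℝ) (h : 0 < s * (59 * x ^ 58 * (derivative (cyclotomic 15 ℝ)).eval (x ^ 59) *
    (cyclotomic 15 ℝ).eval x - (derivative (cyclotomic 15 ℝ)).eval x *
    (cyclotomic 15 ℝ).eval (x ^ 59))) : 0 < s * D (15 * 59) x := by
  have h1 := (key 15 (by norm_num) x).2
  rw [← h1, ← mul_assoc] at h
  exact (mul_pos_iff_of_pos_right (pow_pos (cyclotomic_pos (by norm_num) x) 2)).1 h

theorem sg_gg {x s : ℝ} (h : 0 < s * (x * D (15 * 59) x)) : 0 < s * gg (15 * 59) x := by
  unfold gg
  rw [← mul_div_assoc]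
  exact div_pos h (P_pos (by norm_num) x)

theorem pos_base : POS (gg (15 * 59)) 2 := by
  have s0 : 0 < (1 : ℝ) * gg (15 * 59) (999 / 1000) := sg_gg (by
    have := sgD (999 / 1000) 1 (by rw [c15]; simp; norm_num)
    linarith)
  have s1 : 0 < (-1 : ℝ) * gg (15 * 59) (9 / 10) := sg_gg (by
    have := sgD (9 / 10) (-1) (by rw [c15]; simp; norm_num)
    linarith)
  have s2 : 0 < (1 : ℝ) * gg (15 * 59) (1 / 10) := sg_gg (by
    have := sgD (1 / 10) 1 (by rw [c15]; simp; norm_num)
    linarith)
  refine ⟨fun i => if i = 0 then 999 / 1000 else if i = 1 then 9 / 10 else 1 / 10, ?_, ?_⟩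
  · intro i hi
    interval_cases i
    · refine ⟨by norm_num, by norm_num, ?_⟩; simpa using s0
    · refine ⟨by norm_num, by norm_num, ?_⟩; simpa using s1
    · refine ⟨by norm_num, by norm_num, ?_⟩; simpa using s2
  · intro i hi
    interval_cases i <;> norm_num

theorem neg_base : POS (fun x => gg (15 * 59) (-x)) 5 := by
  have s0 : 0 < (1 : ℝ) * gg (15 * 59) (-(999 / 1000)) := sg_gg (by
    have := sgD (-(999 / 1000)) (-1) (by rw [c15]; simp; norm_num)
    linarith)
  have s1 : 0 < (-1 : ℝ) * gg (15 * 59) (-(199 / 200)) := sg_gg (by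
    have := sgD (-(199 / 200)) 1 (by rw [c15]; simp; norm_num)
    linarith)
  have s2 : 0 < (1 : ℝ) * gg (15 * 59) (-(19 / 20)) := sg_gg (by
    have := sgD (-(19 / 20)) (-1) (by rw [c15]; simp; norm_num)
    linarith)
  have s3 : 0 < (-1 : ℝ) * gg (15 * 59) (-(23 / 25)) := sg_gg (by
    have := sgD (-(23 / 25)) 1 (by rw [c15]; simp; norm_num)
    linarith)
  have s4 : 0 < (1 : ℝ) * gg (15 * 59) (-(7 / 10)) := sg_gg (by
    have := sgD (-(7 / 10)) (-1) (by rw [c15]; simp; norm_num)
    linarith)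
  have s5 : 0 < (-1 : ℝ) * gg (15 * 59) (-(1 / 10)) := sg_gg (by
    have := sgD (-(1 / 10)) 1 (by rw [c15]; simp; norm_num)
    linarith)
  refine ⟨fun i => if i = 0 then 999 / 1000 else if i = 1 then 199 / 200 else
    if i = 2 then 19 / 20 else if i = 3 then 23 / 25 else if i = 4 then 7 / 10 else 1 / 10, ?_, ?_⟩
  · intro i hi
    interval_cases i
    · refine ⟨by norm_num, by norm_num, ?_⟩; simpa using s0
    · refine ⟨by norm_num, by norm_num, ?_⟩; simpa using s1
    · refine ⟨by norm_num, by norm_num, ?_⟩; simpa using s2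
    · refine ⟨by norm_num, by norm_num, ?_⟩
      have e : ((-1 : ℝ)) ^ 3 = -1 := by norm_num
      rw [e]; simpa using s3
    · refine ⟨by norm_num, by norm_num, ?_⟩
      have e : ((-1 : ℝ)) ^ 4 = 1 := by norm_num
      rw [e]; simpa using s4
    · refine ⟨by norm_num, by norm_num, ?_⟩
      have e : ((-1 : ℝ)) ^ 5 = -1 := by norm_num
      rw [e]; simpa using s5
  · intro i hi
    interval_cases i <;> norm_num

end Pool.Agent.KS6_64.CY
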