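import Mathlib

/-!
# Sign changes of `r g(x^r) - g(x)` on `(0, 1)`
-/

set_option autoImplicit false

namespace Pool.Agent.KS6_64.CY

open Filter Topology

/-- There are points `1 > x_0 > x_1 > ... > x_b > 0` at which `g` has the signs `+, -, +, ...`. -/
def POS (g : ℝ → ℝ) (b : ℕ) : Prop :=
  ∃ x : ℕ → ℝ, (∀ i ≤ b, 0 < x i ∧ x i < 1 ∧ 0 < (-1) ^ i * g (x i)) ∧ ∀ i < b, x (i + 1) < x i

theorem step_lower {g : ℝ → ℝ} {A : ℝ} (hg : ∀ x, 0 ≤ x → x ≤ 1 → |g x| ≤ A * x) {b : ℕ}
    (h : POS g b) :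
    ∀ᶠ r : ℕ in atTop, POS (fun x => r * g (x ^ r) - g x) (2 * b + (if Even b then 1 else 0)) := by
  obtain ⟨x, hx, hxd⟩ := h
  have hA : 0 ≤ A := by
    have := hg 1 (by norm_num) le_rfl
    have h0 := abs_nonneg (g 1)
    linarith
  -- the three asymptotic facts
  have h1 : ∀ i ≤ b, ∀ᶠ r : ℕ in atTop, |(r : ℝ) * g (x i ^ r)| < |g (x i)| := by
    intro i hi
    obtain ⟨a1, a2, a3⟩ := hx i hi
    have hne : 0 < |g (x i)| := by
      rw [abs_pos]; intro h0; rw [h0, mul_zero] at a3; exact lt_irrefl _ a3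
    have ht : Tendsto (fun r : ℕ => A * ((r : ℝ) * x i ^ r)) atTop (𝓝 (A * 0)) :=
      (tendsto_self_mul_const_pow_of_lt_one a1.le a2).const_mul A
    rw [mul_zero] at ht
    filter_upwards [ht.eventually (gt_mem_nhds hne)] with r hr
    have h3 := hg (x i ^ r) (pow_nonneg a1.le r) (pow_le_one₀ a1.le a2.le)
    rw [abs_mul, Nat.abs_cast]
    calc (r : ℝ) * |g (x i ^ r)| ≤ r * (A * x i ^ r) := by
          apply mul_le_mul_of_nonneg_left h3; positivity
      _ = A * (r * x i ^ r) := by ring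
      _ < _ := hr
  have h2 : ∀ i ≤ b, ∀ᶠ r : ℕ in atTop, A < (r : ℝ) * |g (x i)| := by
    intro i hi
    obtain ⟨a1, a2, a3⟩ := hx i hi
    have hne : 0 < |g (x i)| := by
      rw [abs_pos]; intro h0; rw [h0, mul_zero] at a3; exact lt_irrefl _ a3
    exact (tendsto_natCast_atTop_atTop.atTop_mul_const hne).eventually (eventually_gt_atTop A)
  have h3 : ∀ i ≤ b, ∀ᶠ r : ℕ in atTop, x i ^ r < x b := by
    intro i hi
    obtain ⟨a1, a2, a3⟩ := hx i hi
    exact (tendsto_pow_atTop_nhds_zero_of_lt_one a1.le a2).eventually (gt_mem_nhds (hx b le_rfl).1)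
  have hall : ∀ᶠ r : ℕ in atTop, ∀ i ∈ Finset.range (b + 1), |(r : ℝ) * g (x i ^ r)| < |g (x i)| ∧
      A < (r : ℝ) * |g (x i)| ∧ x i ^ r < x b := by
    rw [Filter.eventually_all_finset]
    intro i hi
    have hi' : i ≤ b := by
      have := Finset.mem_range.1 hi; omega
    filter_upwards [h1 i hi', h2 i hi', h3 i hi'] with r q1 q2 q3 using ⟨q1, q2, q3⟩
  filter_upwards [hall, eventually_gt_atTop 0] with r hr hr0
  have hr' : ∀ i ≤ b, |(r : ℝ) * g (x i ^ r)| < |g (x i)| ∧
      A < (r : ℝ) * |g (x i)| ∧ x i ^ r < x b := fun i hi => hr i (Finset.mem_range.2 (by omega))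
  clear hr hall h1 h2 h3
  -- the roots
  set y : ℕ → ℝ := fun i => x i ^ ((r : ℝ)⁻¹) with hy
  have hyr : ∀ i ≤ b, y i ^ r = x i := fun i hi =>
    Real.rpow_inv_natCast_pow (hx i hi).1.le hr0.ne'
  have hy0 : ∀ i ≤ b, 0 < y i := fun i hi => Real.rpow_pos_of_pos (hx i hi).1 _
  have hy1 : ∀ i ≤ b, y i < 1 := fun i hi =>
    Real.rpow_lt_one (hx i hi).1.le (hx i hi).2.1 (by positivity)
  -- signs
  have sgn : ∀ s t : ℝ, 0 < s * t → (s = 1 ∨ s = -1) → s * t = |t| := by
    intro s t hst hs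
    rcases hs with rfl | rfl
    · rw [one_mul] at *; exact (abs_of_pos hst).symm
    · rw [abs_of_neg (by linarith)]; ring
  have pm : ∀ i : ℕ, ((-1 : ℝ) ^ i = 1 ∨ (-1 : ℝ) ^ i = -1) := fun i => neg_one_pow_eq_or ℝ i
  have hmid : ∀ i ≤ b, 0 < -((-1) ^ i * (r * g (x i ^ r) - g (x i))) := by
    intro i hi
    have q1 := (hr' i hi).1
    have q2 := sgn _ _ (hx i hi).2.2 (pm i)
    have q3 : (-1 : ℝ) ^ i * (r * g (x i ^ r)) ≤ |(r : ℝ) * g (x i ^ r)| := by
      rcases pm i with e | e <;> rw [e]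
      · rw [one_mul]; exact le_abs_self _
      · rw [neg_one_mul]; exact neg_le_abs _
    nlinarith
  have hend : ∀ i ≤ b, 0 < (-1) ^ i * (r * g (y i ^ r) - g (y i)) := by
    intro i hi
    rw [hyr i hi]
    have q1 := (hr' i hi).2.1
    have q2 := sgn _ _ (hx i hi).2.2 (pm i)
    have q3 : (-1 : ℝ) ^ i * g (y i) ≤ |g (y i)| := by
      rcases pm i with e | e <;> rw [e]
      · rw [one_mul]; exact le_abs_self _
      · rw [neg_one_mul]; exact neg_le_abs _
    have q4 := hg (y i) (hy0 i hi).le (hy1 i hi).le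
    have q5 : A * y i ≤ A := by nlinarith [hy1 i hi, hy0 i hi]
    have q6 : (-1 : ℝ) ^ i * (r * g (x i)) = r * |g (x i)| := by rw [← q2]; ring
    have q7 : (-1 : ℝ) ^ i * (r * g (x i) - g (y i)) =
        (-1 : ℝ) ^ i * (r * g (x i)) - (-1 : ℝ) ^ i * g (y i) := by ring
    rw [q7, q6]; linarith
  have hlt : ∀ i ≤ b, ∀ j ≤ b, x i < y j := by
    intro i hi j hj
    by_contra hcon
    push Not at hcon
    have q1 : y j ^ r ≤ x i ^ r := pow_le_pow_left₀ (hy0 j hj).le hcon r
    rw [hyr j hj] at q1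
    have q2 : x b ≤ x j := by
      have : ∀ k, j ≤ k → k ≤ b → x k ≤ x j := by
        intro k hk
        induction k, hk using Nat.le_induction with
        | base => intro _; exact le_rfl
        | succ k hk ih => intro hkb; exact (hxd k (by omega)).le.trans (ih (by omega))
      exact this b hj le_rfl
    have := (hr' i hi).2.2
    linarith
  have hyd : ∀ i < b, y (i + 1) < y i := fun i hi =>
    Real.rpow_lt_rpow (hx (i + 1) (by omega)).1.le (hxd i hi) (by positivity)
  by_cases hb : Even b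
  · rw [if_pos hb]
    refine ⟨fun i => if i ≤ b then y i else x (i - (b + 1)), ?_, ?_⟩
    · intro i hi
      by_cases hib : i ≤ b
      · simp only [if_pos hib]
        exact ⟨hy0 i hib, hy1 i hib, hend i hib⟩
      · simp only [if_neg hib]
        have hj : i - (b + 1) ≤ b := by omega
        refine ⟨(hx _ hj).1, (hx _ hj).2.1, ?_⟩
        have q := hmid _ hj
        have e : (-1 : ℝ) ^ i = -(-1) ^ (i - (b + 1)) := by
          obtain ⟨k, rfl⟩ : ∃ k, i = b + 1 + k := ⟨i - (b + 1), by omega⟩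
          rw [show b + 1 + k - (b + 1) = k by omega, pow_add, pow_succ, hb.neg_one_pow]; ring
        rw [e]; linarith
    · intro i hi
      rcases lt_trichotomy i b with h | h | h
      · simp only [if_pos h.le, if_pos (show i + 1 ≤ b by omega)]
        exact hyd i h
      · subst h
        simp only [le_refl, if_true, if_neg (show ¬ i + 1 ≤ i by omega), Nat.sub_self]
        exact hlt _ (Nat.zero_le _) _ le_rfl
      · simp only [if_neg (show ¬ i ≤ b by omega), if_neg (show ¬ i + 1 ≤ b by omega)]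
        have := hxd (i - (b + 1)) (by omega)
        rwa [show i + 1 - (b + 1) = i - (b + 1) + 1 by omega]
  · rw [if_neg hb]
    have hb' : Odd b := Nat.not_even_iff_odd.1 hb
    refine ⟨fun i => if i ≤ b then y i else x (i - b), ?_, ?_⟩
    · intro i hi
      by_cases hib : i ≤ b
      · simp only [if_pos hib]
        exact ⟨hy0 i hib, hy1 i hib, hend i hib⟩
      · simp only [if_neg hib]
        have hj : i - b ≤ b := by omega
        refine ⟨(hx _ hj).1, (hx _ hj).2.1, ?_⟩
        have q := hmid _ hj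
        have e : (-1 : ℝ) ^ i = -(-1) ^ (i - b) := by
          obtain ⟨k, rfl⟩ : ∃ k, i = b + k := ⟨i - b, by omega⟩
          rw [show b + k - b = k by omega, pow_add, hb'.neg_one_pow]; ring
        rw [e]; linarith
    · intro i hi
      rcases lt_trichotomy i b with h | h | h
      · simp only [if_pos h.le, if_pos (show i + 1 ≤ b by omega)]
        exact hyd i h
      · subst h
        simp only [le_refl, if_true, if_neg (show ¬ i + 1 ≤ i by omega)]
        exact hlt _ (by omega) _ le_rfl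
      · simp only [if_neg (show ¬ i ≤ b by omega), if_neg (show ¬ i + 1 ≤ b by omega)]
        have := hxd (i - b) (by omega)
        rwa [show i + 1 - b = i - b + 1 by omega]

/-- `b` sign changes give `b` zeros in `(0, 1)` -/
theorem zeros_of_POS {g : ℝ → ℝ} (hc : Continuous g) {b : ℕ} (h : POS g b) :
    ∃ Z : Finset ℝ, Z.card = b ∧ ∀ z ∈ Z, 0 < z ∧ z < 1 ∧ g z = 0 := by
  obtain ⟨x, hx, hxd⟩ := h
  have key : ∀ i < b, ∃ z, x (i + 1) < z ∧ z < x i ∧ g z = 0 := by
    intro i hi
    have h1 := (hx i (by omega)).2.2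
    have h2 := (hx (i + 1) (by omega)).2.2
    have hlt := hxd i hi
    rcases neg_one_pow_eq_or ℝ i with e | e
    · rw [e, one_mul] at h1
      rw [pow_succ, e, one_mul, neg_one_mul] at h2
      obtain ⟨z, hz, hz0⟩ := intermediate_value_Ioo hlt.le hc.continuousOn
        (show (0 : ℝ) ∈ Set.Ioo (g (x (i + 1))) (g (x i)) from ⟨by linarith, h1⟩)
      exact ⟨z, hz.1, hz.2, hz0⟩
    · rw [e, neg_one_mul] at h1
      rw [pow_succ, e, neg_one_mul, neg_neg, one_mul] at h2
      obtain ⟨z, hz, hz0⟩ := intermediate_value_Ioo' hlt.le hc.continuousOn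
        (show (0 : ℝ) ∈ Set.Ioo (g (x i)) (g (x (i + 1))) from ⟨by linarith, h2⟩)
      exact ⟨z, hz.1, hz.2, hz0⟩
  choose! z hz1 hz2 hz0 using key
  have hanti : ∀ i j, i < j → j < b → z j < z i := by
    intro i j hij hj
    have hle : ∀ k, i + 1 ≤ k → k ≤ b → x k ≤ x (i + 1) := by
      intro k hk
      induction k, hk using Nat.le_induction with
      | base => intro _; exact le_rfl
      | succ k hk ih => intro hkb; exact (hxd k (by omega)).le.trans (ih (by omega))
    have := hle j (by omega) (by omega)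
    have h1 := hz2 j hj
    have h2 := hz1 i (by omega)
    linarith
  refine ⟨(Finset.range b).image z, ?_, ?_⟩
  · rw [Finset.card_image_of_injOn, Finset.card_range]
    intro i hi j hj hij
    have hi' : i < b := by simpa using hi
    have hj' : j < b := by simpa using hj
    by_contra hne
    rcases lt_or_gt_of_ne hne with h | h
    · have := hanti i j h hj'; have h5 : z i = z j := hij; linarith
    · have := hanti j i h hi'; have h5 : z i = z j := hij; linarith
  · intro w hw
    obtain ⟨i, hi, rfl⟩ := Finset.mem_image.1 hw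
    have hi' : i < b := Finset.mem_range.1 hi
    have h1 := (hx (i + 1) (by omega)).1
    have h2 := (hx i (by omega)).2.1
    exact ⟨h1.trans (hz1 i hi'), (hz2 i hi').trans h2, hz0 i hi'⟩

end Pool.Agent.KS6_64.CY
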