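import Pool.Agent.KS6_64.CY.Step
import Pool.Agent.KS6_64.CY.Lower

/-!
# The functions `x Φ_m'(x) / Φ_m(x)`
-/

set_option autoImplicit false

namespace Pool.Agent.KS6_64.CY

open Filter Topology Polynomial

/-- `Φ_m(x)` -/
noncomputable def P (m : ℕ) (x : ℝ) : ℝ := (cyclotomic m ℝ).eval x
/-- `Φ_m'(x)` -/
noncomputable def D (m : ℕ) (x : ℝ) : ℝ := (derivative (cyclotomic m ℝ)).eval x
/-- `Φ_m''(x)` -/
noncomputable def D2 (m : ℕ) (x : ℝ) : ℝ := (derivative (derivative (cyclotomic m ℝ))).eval x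

/-- `x Φ_m'(x) / Φ_m(x)` -/
noncomputable def gg (m : ℕ) (x : ℝ) : ℝ := x * D m x / P m x
/-- the derivative of `gg m` -/
noncomputable def gg' (m : ℕ) (x : ℝ) : ℝ :=
  ((D m x + x * D2 m x) * P m x - x * D m x * D m x) / P m x ^ 2

theorem P_pos {m : ℕ} (hm : 2 < m) (x : ℝ) : 0 < P m x := cyclotomic_pos hm x

theorem P_der (m : ℕ) (x : ℝ) : HasDerivAt (P m) (D m x) x := (cyclotomic m ℝ).hasDerivAt x
theorem D_der (m : ℕ) (x : ℝ) : HasDerivAt (D m) (D2 m x) x :=
  (derivative (cyclotomic m ℝ)).hasDerivAt x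

theorem P_cont (m : ℕ) : Continuous (P m) := (cyclotomic m ℝ).continuous
theorem D_cont (m : ℕ) : Continuous (D m) := (derivative (cyclotomic m ℝ)).continuous
theorem D2_cont (m : ℕ) : Continuous (D2 m) := (derivative (derivative (cyclotomic m ℝ))).continuous

theorem gg_der {m : ℕ} (hm : 2 < m) (x : ℝ) : HasDerivAt (gg m) (gg' m x) x := by
  have h := ((hasDerivAt_id' x).mul (D_der m x)).div (P_der m x) (P_pos hm x).ne'
  refine h.congr_deriv ?_
  simp only [gg', Pi.mul_apply]
  ring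

theorem gg_cont {m : ℕ} (hm : 2 < m) : Continuous (gg m) :=
  continuous_iff_continuousAt.2 fun x => (gg_der hm x).continuousAt

theorem gg'_cont {m : ℕ} (hm : 2 < m) : Continuous (gg' m) := by
  have h1 := P_cont m
  have h2 := D_cont m
  have h3 := D2_cont m
  unfold gg'
  exact Continuous.div (by fun_prop) (by fun_prop) fun x => pow_ne_zero _ (P_pos hm x).ne'

theorem gg_zero (m : ℕ) : gg m 0 = 0 := by simp [gg]

theorem gg_bound {m : ℕ} (hm : 2 < m) : ∃ A : ℝ, ∀ x, |x| ≤ 1 → |gg m x| ≤ A * |x| := by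
  obtain ⟨A, hA⟩ := (isCompact_Icc (a := (-1 : ℝ)) (b := 1)).exists_bound_of_continuousOn
    (f := fun x => D m x / P m x)
    (((D_cont m).div (P_cont m) fun x => (P_pos hm x).ne').continuousOn)
  refine ⟨A, fun x hx => ?_⟩
  have h1 := hA x (Set.mem_Icc.2 (abs_le.1 hx))
  rw [Real.norm_eq_abs] at h1
  have h2 : gg m x = D m x / P m x * x := by unfold gg; ring
  rw [h2, abs_mul]
  exact mul_le_mul_of_nonneg_right h1 (abs_nonneg _)

theorem P_mul {m r : ℕ} (hr : r.Prime) (hrm : ¬ r ∣ m) (x : ℝ) :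
    P (m * r) x * P m x = P m (x ^ r) ∧
    D (m * r) x * P m x + P (m * r) x * D m x = D m (x ^ r) * (r * x ^ (r - 1)) := by
  have h := cyclotomic_expand_eq_cyclotomic_mul hr hrm ℝ
  have h1 := congrArg (eval x) h
  have h2 := congrArg (fun Q => eval x (derivative Q)) h
  simp only [derivative_expand, derivative_mul, eval_mul, eval_add, expand_eval, eval_pow, eval_X,
    eval_natCast] at h1 h2
  exact ⟨h1.symm, h2.symm⟩

theorem gg_mul {m r : ℕ} (hm : 2 < m) (hr : r.Prime) (hrm : ¬ r ∣ m) (x : ℝ) :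
    gg (m * r) x = r * gg m (x ^ r) - gg m x := by
  obtain ⟨h1, h2⟩ := P_mul hr hrm x
  have hP := (P_pos hm x).ne'
  have hPr := (P_pos hm (x ^ r)).ne'
  have hmr : 2 < m * r := lt_of_lt_of_le hm (Nat.le_mul_of_pos_right m hr.pos)
  have hPm := (P_pos hmr x).ne'
  have e : x * x ^ (r - 1) = x ^ r := mul_pow_sub_one hr.ne_zero x
  unfold gg
  rw [← h1] at *
  rw [eq_sub_iff_add_eq]
  have h3 : x ^ r * D m (x ^ r) * r = x * (D (m * r) x * P m x + P (m * r) x * D m x) := by
    rw [h2, ← e]; ring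
  rw [mul_div_assoc', div_add_div _ _ hPm hP, div_left_inj' (mul_ne_zero hPm hP)]
  linear_combination -h3

theorem UP_cyc {m N : ℕ} (hm : 2 < m) (h : UP (gg m) (gg' m) N) :
    ∀ᶠ r : ℕ in atTop, r.Prime → UP (gg (m * r)) (gg' (m * r)) (2 * N + 1) := by
  filter_upwards [step_upper h, eventually_gt_atTop m, eventually_gt_atTop 2] with r hr hrm hr2 hp
  have hrm' : ¬ r ∣ m := fun hd => by
    have := Nat.le_of_dvd (by omega) hd; omega
  have h1 := hr (hp.odd_of_ne_two (by omega))
  have hmr : 2 < m * r := lt_of_lt_of_le hm (Nat.le_mul_of_pos_right m hp.pos)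
  have e : (fun x => r * gg m (x ^ r) - gg m x) = gg (m * r) := by
    funext x; exact (gg_mul hm hp hrm' x).symm
  rw [e] at h1
  have e' : (fun x => r * (gg' m (x ^ r) * (r * x ^ (r - 1))) - gg' m x) = gg' (m * r) := by
    funext x; exact (h1.der x).unique (gg_der hmr x)
  rwa [e'] at h1

theorem POS_cyc {m b : ℕ} (hm : 2 < m) (h : POS (gg m) b) :
    ∀ᶠ r : ℕ in atTop, r.Prime → POS (gg (m * r)) (2 * b + if Even b then 1 else 0) := by
  obtain ⟨A, hA⟩ := gg_bound hm
  have h0 : ∀ x, 0 ≤ x → x ≤ 1 → |gg m x| ≤ A * x := fun x h1 h2 => by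
    have := hA x (by rwa [abs_of_nonneg h1])
    rwa [abs_of_nonneg h1] at this
  filter_upwards [step_lower h0 h, eventually_gt_atTop m] with r hr hrm hp
  have hrm' : ¬ r ∣ m := fun hd => by
    have := Nat.le_of_dvd (by omega) hd; omega
  have e : (fun x => r * gg m (x ^ r) - gg m x) = gg (m * r) := by
    funext x; exact (gg_mul hm hp hrm' x).symm
  rwa [e] at hr

theorem NEG_cyc {m a : ℕ} (hm : 2 < m) (h : POS (fun x => gg m (-x)) a) :
    ∀ᶠ r : ℕ in atTop, r.Prime →
      POS (fun x => gg (m * r) (-x)) (2 * a + if Even a then 1 else 0) := by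
  obtain ⟨A, hA⟩ := gg_bound hm
  have h0 : ∀ x, 0 ≤ x → x ≤ 1 → |gg m (-x)| ≤ A * x := fun x h1 h2 => by
    have := hA (-x) (by rwa [abs_neg, abs_of_nonneg h1])
    rwa [abs_neg, abs_of_nonneg h1] at this
  filter_upwards [step_lower h0 h, eventually_gt_atTop m, eventually_gt_atTop 2]
    with r hr hrm hr2 hp
  have hrm' : ¬ r ∣ m := fun hd => by
    have := Nat.le_of_dvd (by omega) hd; omega
  have hodd := hp.odd_of_ne_two (by omega)
  have e : (fun x => r * gg m (-(x ^ r)) - gg m (-x)) = fun x => gg (m * r) (-x) := by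
    funext x
    rw [gg_mul hm hp hrm' (-x), hodd.neg_pow]
  rwa [e] at hr

/-- the upper bound for the number of the real roots with multiplicity -/
theorem roots_le {m N : ℕ} (hm : 2 < m) (h : UP (gg m) (gg' m) N) :
    (derivative (cyclotomic m ℝ)).roots.card ≤ N := by
  classical
  set Q := derivative (cyclotomic m ℝ) with hQ
  have hroot : ∀ x, Q.eval x = 0 → x ≠ 0 ∧ gg m x = 0 := by
    intro x hx
    have hD : D m x = 0 := hx
    refine ⟨?_, by simp [gg, hD]⟩
    rintro rfl
    exact h.tau (by simp [gg', hD])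
  have hs : ∀ x, Q.eval x = 0 → (derivative Q).eval x ≠ 0 := by
    intro x hx h2
    obtain ⟨h0, h1⟩ := hroot x hx
    have hD : D m x = 0 := hx
    have hD2 : D2 m x = 0 := h2
    exact h.simple x h0 h1 (by simp [gg', hD, hD2])
  have nd : Q.roots.Nodup := by
    rw [Multiset.nodup_iff_count_le_one]
    intro x
    rw [count_roots]
    by_contra hc
    by_cases q0 : Q = 0
    · simp [q0] at hc
    have := (one_lt_rootMultiplicity_iff_isRoot q0).1 (not_le.1 hc)
    exact hs x this.1 this.2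
  rw [← Multiset.toFinset_card_of_nodup nd, ← Set.ncard_coe_finset]
  refine le_trans (Set.ncard_le_ncard ?_ h.fin) h.card
  intro x hx
  rw [Finset.mem_coe, Multiset.mem_toFinset, mem_roots'] at hx
  exact hroot x hx.2

/-- the lower bound for the number of the real roots -/
theorem le_roots {m a b : ℕ} (hm : 2 < m) (hb : POS (gg m) b) (ha : POS (fun x => gg m (-x)) a) :
    a + b ≤ (derivative (cyclotomic m ℝ)).roots.card := by
  classical
  set Q := derivative (cyclotomic m ℝ) with hQ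
  have hQ0 : Q ≠ 0 := by
    intro h0
    obtain ⟨x, hx, -⟩ := hb
    have h1 := (hx 0 (Nat.zero_le _)).2.2
    have h2 : gg m (x 0) = 0 := by
      have : D m (x 0) = 0 := by simp [D, ← hQ, h0]
      simp [gg, this]
    rw [h2, mul_zero] at h1
    exact lt_irrefl _ h1
  obtain ⟨Z1, c1, z1⟩ := zeros_of_POS (gg_cont hm) hb
  obtain ⟨Z2, c2, z2⟩ := zeros_of_POS (g := fun x => gg m (-x))
    ((gg_cont hm).comp continuous_neg) ha
  have hz : ∀ x, x ≠ 0 → gg m x = 0 → Q.eval x = 0 := by
    intro x hx h0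
    have h1 := (P_pos hm x).ne'
    have h2 : D m x = 0 := by
      unfold gg at h0
      rcases div_eq_zero_iff.1 h0 with h | h
      · exact (mul_eq_zero.1 h).resolve_left hx
      · exact absurd h h1
    exact h2
  have hsub : Z2.image (fun x => -x) ∪ Z1 ⊆ Q.roots.toFinset := by
    intro x hx
    rw [Multiset.mem_toFinset, mem_roots hQ0]
    rcases Finset.mem_union.1 hx with hx | hx
    · obtain ⟨y, hy, rfl⟩ := Finset.mem_image.1 hx
      obtain ⟨y1, y2, y3⟩ := z2 y hy
      exact hz (-y) (by linarith) y3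
    · obtain ⟨y1, y2, y3⟩ := z1 x hx
      exact hz x y1.ne' y3
  have hdis : Disjoint (Z2.image (fun x => -x)) Z1 := by
    rw [Finset.disjoint_left]
    intro x hx hx'
    obtain ⟨y, hy, rfl⟩ := Finset.mem_image.1 hx
    have h1 := (z2 y hy).1
    have h2 := (z1 _ hx').1
    linarith
  have hcard : (Z2.image (fun x => -x) ∪ Z1).card = a + b := by
    rw [Finset.card_union_of_disjoint hdis, Finset.card_image_of_injective _ neg_injective, c1, c2]
  rw [← hcard]
  exact (Finset.card_le_card hsub).trans (Multiset.toFinset_card_le _)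

end Pool.Agent.KS6_64.CY
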