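import Pool.Agent.KS6_64.CY.Upper

/-!
# One large odd exponent: `N` simple zeros become at most `2 N + 1` simple zeros
-/

set_option autoImplicit false

namespace Pool.Agent.KS6_64.CY

open Filter Topology

variable {g g' : ℝ → ℝ} {N : ℕ}

/-- the estimates near `0` -/
theorem near_est {τ δ0 : ℝ} {y : ℝ} (n1 : ∀ x, |x| ≤ δ0 → |g' x - τ| ≤ |τ| / 4)
    (n2 : ∀ x, |x| ≤ δ0 → |g x - τ * x| ≤ |τ| / 4 * |x|) (hy : |y| ≤ δ0) (hpos : 0 < g y) :
    0 < τ * y ∧ 1 / 2 * g y ≤ y * g' y := by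
  have h1 := n2 y hy
  have h2 := n1 y hy
  rw [abs_le] at h1
  have e : |τ| / 4 * |y| = |τ * y| / 4 := by rw [abs_mul]; ring
  rw [e] at h1
  have h3 : 0 < τ * y := by
    by_contra hcon
    rw [abs_of_nonpos (not_lt.1 hcon)] at h1
    linarith [not_lt.1 hcon]
  rw [abs_of_pos h3] at h1
  refine ⟨h3, ?_⟩
  have h4 : |y * (g' y - τ)| ≤ τ * y / 4 := by
    rw [abs_mul]
    calc |y| * |g' y - τ| ≤ |y| * (|τ| / 4) := mul_le_mul_of_nonneg_left h2 (abs_nonneg _)
      _ = |τ * y| / 4 := by rw [abs_mul]; ring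
      _ = _ := by rw [abs_of_pos h3]
  have h5 := (abs_le.1 h4).1
  nlinarith

theorem near_pos {τ δ0 : ℝ} {y : ℝ} (n1 : ∀ x, |x| ≤ δ0 → |g' x - τ| ≤ |τ| / 4)
    (n2 : ∀ x, |x| ≤ δ0 → |g x - τ * x| ≤ |τ| / 4 * |x|) (hy : |y| ≤ δ0) (hpos : 0 < τ * y) :
    0 < g y := by
  have h1 := n2 y hy
  rw [abs_le] at h1
  have e : |τ| / 4 * |y| = |τ * y| / 4 := by rw [abs_mul]; ring
  rw [e, abs_of_pos hpos] at h1
  linarith

theorem step_upper (h : UP g g' N) : ∀ᶠ r : ℕ in atTop, Odd r →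
    UP (fun x => r * g (x ^ r) - g x) (fun x => r * (g' (x ^ r) * (r * x ^ (r - 1))) - g' x)
      (2 * N + 1) := by
  classical
  obtain ⟨c, C, hc, hb⟩ := h.big
  obtain ⟨M, hM, hM1, hM2⟩ := h.bound
  obtain ⟨δ0, d0, d01, n1, n2⟩ := h.near0
  obtain ⟨δ1, d1, d11, k1⟩ := h.near1 hc hb
  obtain ⟨γ, δ, hγ, hδ, k2⟩ := h.nearZ
  obtain ⟨ε, hε, k3⟩ := h.near hδ
  have ha : (0 : ℝ) < 1 - δ1 := by linarith
  have ha1 : 1 - δ1 < 1 := by linarith
  have E1 : ∀ᶠ r : ℕ in atTop, C < (r : ℝ) * c :=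
    (tendsto_natCast_atTop_atTop.atTop_mul_const hc).eventually (eventually_gt_atTop C)
  have E2 : ∀ᶠ r : ℕ in atTop, M / (1 - δ1) * ((r : ℝ) * (1 - δ1) ^ r) < ε := by
    have ht := (tendsto_self_mul_const_pow_of_lt_one ha.le ha1).const_mul (M / (1 - δ1))
    rw [mul_zero] at ht
    exact ht.eventually (gt_mem_nhds hε)
  have E3 : ∀ᶠ r : ℕ in atTop, M / (1 - δ1) * ((r : ℝ) ^ 2 * (1 - δ1) ^ r) < γ := by
    have ht := (tendsto_pow_const_mul_const_pow_of_lt_one 2 ha.le ha1).const_mul (M / (1 - δ1))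
    rw [mul_zero] at ht
    exact ht.eventually (gt_mem_nhds hγ)
  have E4 : ∀ᶠ r : ℕ in atTop, M < (r : ℝ) * (c / 4) :=
    (tendsto_natCast_atTop_atTop.atTop_mul_const (by positivity)).eventually (eventually_gt_atTop M)
  have E5 : ∀ᶠ r : ℕ in atTop, M < (r : ℝ) * (ε * δ0) :=
    (tendsto_natCast_atTop_atTop.atTop_mul_const (by positivity)).eventually (eventually_gt_atTop M)
  have E6 : ∀ᶠ r : ℕ in atTop, M < (r : ℝ) * (γ * δ0) :=
    (tendsto_natCast_atTop_atTop.atTop_mul_const (by positivity)).eventually (eventually_gt_atTop M)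
  filter_upwards [E1, E2, E3, E4, E5, E6, eventually_ge_atTop 2] with r e1 e2 e3 e4 e5 e6 e7 hodd
  clear E1 E2 E3 E4 E5 E6
  have r0 : r ≠ 0 := by omega
  have rp : (0 : ℝ) < r := by exact_mod_cast (by omega : 0 < r)
  have r1 : (1 : ℝ) ≤ r := by exact_mod_cast (by omega : 1 ≤ r)
  set H : ℝ → ℝ := fun x => r * g (x ^ r) - g x with hH
  set H' : ℝ → ℝ := fun x => r * (g' (x ^ r) * (r * x ^ (r - 1))) - g' x with hH'
  have hder : ∀ x, HasDerivAt H (H' x) x := fun x =>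
    (((h.der (x ^ r)).comp x (hasDerivAt_pow r x)).const_mul (r : ℝ)).sub (h.der x)
  have hmono : StrictMono fun x : ℝ => x ^ r := hodd.strictMono_pow
  -- `x H'(x)`
  have hxH : ∀ x, x * H' x = r ^ 2 * (x ^ r * g' (x ^ r)) - x * g' x := by
    intro x
    have : x * x ^ (r - 1) = x ^ r := mul_pow_sub_one r0 x
    simp only [hH']
    linear_combination (r : ℝ) ^ 2 * g' (x ^ r) * this
  have pw : ∀ x : ℝ, |x| ≤ 1 → |x ^ r| ≤ 1 := fun x hx => by
    rw [abs_pow]; exact pow_le_one₀ (abs_nonneg _) hx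
  have hxg : ∀ x, |x| ≤ 1 → |x * g' x| ≤ M := fun x hx => by
    rw [abs_mul]
    calc |x| * |g' x| ≤ 1 * M := mul_le_mul hx (hM1 x hx) (abs_nonneg _) zero_le_one
      _ = M := one_mul M
  -- no zeros outside of the open interval
  have hbig : ∀ x, 1 ≤ |x| → r * c - C ≤ H x ∧ H x ≤ r * C := by
    intro x hx
    have h1 := hb x hx
    have h2 := hb (x ^ r) (by rw [abs_pow]; exact one_le_pow₀ hx)
    have h3 : (r : ℝ) * c ≤ r * g (x ^ r) := mul_le_mul_of_nonneg_left h2.1 rp.le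
    have h4 : (r : ℝ) * g (x ^ r) ≤ r * C := mul_le_mul_of_nonneg_left h2.2 rp.le
    constructor
    · show _ ≤ r * g (x ^ r) - g x; linarith
    · show r * g (x ^ r) - g x ≤ _; linarith
  have hlt1 : ∀ x, H x = 0 → |x| < 1 := by
    intro x hx
    by_contra hcon
    have := (hbig x (not_lt.1 hcon)).1
    rw [hx] at this; linarith
  have heq : ∀ x, H x = 0 → r * g (x ^ r) = g x := fun x hx => by
    have : r * g (x ^ r) - g x = 0 := hx
    linarith
  -- derivative in the zones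
  have hA : ∀ x, |x| ≤ 1 - δ1 → γ ≤ |g' x| → H' x ≠ 0 := by
    intro x hx hg h0
    have h1 : |x| ≤ 1 := by linarith
    have h2 : r * (g' (x ^ r) * (r * x ^ (r - 1))) = g' x := by
      have : r * (g' (x ^ r) * (r * x ^ (r - 1))) - g' x = 0 := h0
      linarith
    have h3 : |r * (g' (x ^ r) * (r * x ^ (r - 1)))| ≤ M / (1 - δ1) * ((r : ℝ) ^ 2 * (1 - δ1) ^ r) := by
      have h4 := hM1 (x ^ r) (pw x h1)
      have h5 : |x| ^ (r - 1) ≤ (1 - δ1) ^ (r - 1) := pow_le_pow_left₀ (abs_nonneg _) hx _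
      have h6 : (1 - δ1) ^ r = (1 - δ1) * (1 - δ1) ^ (r - 1) := (mul_pow_sub_one r0 _).symm
      rw [h6, abs_mul, abs_mul, abs_mul, abs_pow, Nat.abs_cast]
      have h7 : M / (1 - δ1) * ((r : ℝ) ^ 2 * ((1 - δ1) * (1 - δ1) ^ (r - 1))) =
          r * (M * (r * (1 - δ1) ^ (r - 1))) := by field_simp
      rw [h7]
      gcongr
    rw [h2] at h3
    linarith
  have hC : ∀ x, x ≠ 0 → |x| ≤ 1 → δ0 < |x ^ r| → γ ≤ |g' (x ^ r)| → H' x ≠ 0 := by
    intro x hx0 hx h1 h2 h0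
    have h3 := hxH x
    rw [h0, mul_zero] at h3
    have h4 : (r : ℝ) ^ 2 * (x ^ r * g' (x ^ r)) = x * g' x := by linarith
    have h5 := hxg x hx
    rw [← h4, abs_mul, abs_mul, abs_of_pos (show (0 : ℝ) < (r : ℝ) ^ 2 by positivity)] at h5
    have h6 : δ0 * γ ≤ |x ^ r| * |g' (x ^ r)| := mul_le_mul h1.le h2 hγ.le (abs_nonneg _)
    have h7 : (r : ℝ) * (γ * δ0) ≤ (r : ℝ) ^ 2 * (|x ^ r| * |g' (x ^ r)|) := by
      have : (r : ℝ) * (γ * δ0) ≤ (r : ℝ) ^ 2 * (δ0 * γ) := by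
        have : (0 : ℝ) ≤ γ * δ0 := by positivity
        nlinarith
      exact this.trans (mul_le_mul_of_nonneg_left h6 (by positivity))
    linarith
  have hB : ∀ x, |x| ≤ 1 → 1 - δ1 < |x| → |x ^ r| ≤ δ0 → H x = 0 → H' x ≠ 0 := by
    intro x hx hx1 h1 hz h0
    have h2 := k1 x hx1.le hx
    have h3 := heq x hz
    have h4 : 0 < g (x ^ r) := by
      by_contra hcon
      have := mul_nonpos_of_nonneg_of_nonpos rp.le (not_lt.1 hcon)
      linarith
    have h5 := (near_est n1 n2 h1 h4).2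
    have h6 := hxH x
    rw [h0, mul_zero] at h6
    have h7 := (abs_le.1 (hxg x hx)).2
    have h8 : (r : ℝ) ^ 2 * (1 / 2 * g (x ^ r)) ≤ (r : ℝ) ^ 2 * (x ^ r * g' (x ^ r)) :=
      mul_le_mul_of_nonneg_left h5 (by positivity)
    have h9 : (r : ℝ) ^ 2 * (1 / 2 * g (x ^ r)) = r / 2 * g x := by rw [← h3]; ring
    have h10 : (r : ℝ) / 2 * (c / 2) ≤ r / 2 * g x := mul_le_mul_of_nonneg_left h2 (by positivity)
    have : (r : ℝ) / 2 * (c / 2) = r * (c / 4) := by ring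
    linarith
  -- the zones
  let T : ℕ × ℝ → ℝ → Prop := fun p x =>
    (p.1 = 0 ∧ (p.2 ≠ 0 ∧ g p.2 = 0) ∧ |x| ≤ 1 - δ1 ∧ |x - p.2| < δ) ∨
    (p.1 = 1 ∧ (p.2 ≠ 0 ∧ g p.2 = 0) ∧ 1 - δ1 < |x| ∧ δ0 < |x ^ r| ∧ |x ^ r - p.2| < δ) ∨
    (p = (2, 0) ∧ 1 - δ1 < |x| ∧ |x ^ r| ≤ δ0)
  have hloc : ∀ x, x ≠ 0 → H x = 0 → ∃ p, T p x := by
    intro x hx hz
    have hx1 := (hlt1 x hz).le
    have h3 := heq x hz
    rcases le_or_gt |x| (1 - δ1) with h1 | h1
    · have h4 : |g x| ≤ ε * |x| := by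
        rw [← h3, abs_mul, Nat.abs_cast]
        have h5 := hM2 (x ^ r) (pw x hx1)
        have h6 : |x ^ r| ≤ (1 - δ1) ^ (r - 1) * |x| := by
          rw [abs_pow, ← pow_sub_one_mul r0 |x|]
          exact mul_le_mul_of_nonneg_right (pow_le_pow_left₀ (abs_nonneg _) h1 _) (abs_nonneg _)
        have h8 : M / (1 - δ1) * ((r : ℝ) * (1 - δ1) ^ r) = r * (M * (1 - δ1) ^ (r - 1)) := by
          rw [← mul_pow_sub_one r0 (1 - δ1)]; field_simp
        rw [h8] at e2
        calc (r : ℝ) * |g (x ^ r)| ≤ r * (M * ((1 - δ1) ^ (r - 1) * |x|)) := by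
              apply mul_le_mul_of_nonneg_left _ rp.le
              exact h5.trans (mul_le_mul_of_nonneg_left h6 hM.le)
          _ = r * (M * (1 - δ1) ^ (r - 1)) * |x| := by ring
          _ ≤ ε * |x| := mul_le_mul_of_nonneg_right e2.le (abs_nonneg _)
      obtain ⟨z, hz0, hz1, hz2⟩ := k3 x hx hx1 h4
      exact ⟨(0, z), Or.inl ⟨rfl, ⟨hz0, hz1⟩, h1, hz2⟩⟩
    · rcases le_or_gt |x ^ r| δ0 with h2 | h2
      · exact ⟨(2, 0), Or.inr (Or.inr ⟨rfl, h1, h2⟩)⟩
      · have h4 : |g (x ^ r)| ≤ ε * |x ^ r| := by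
          have h5 := hM2 x hx1
          rw [← h3, abs_mul, Nat.abs_cast] at h5
          have h6 : (r : ℝ) * |g (x ^ r)| ≤ M := h5.trans (by nlinarith [abs_nonneg x])
          have h7 : (r : ℝ) * |g (x ^ r)| ≤ r * (ε * δ0) := by linarith
          have h8 : |g (x ^ r)| ≤ ε * δ0 := le_of_mul_le_mul_left h7 rp
          exact h8.trans (mul_le_mul_of_nonneg_left h2.le hε.le)
        obtain ⟨z, hz0, hz1, hz2⟩ := k3 (x ^ r) (pow_ne_zero _ hx) (pw x hx1) h4
        exact ⟨(1, z), Or.inr (Or.inl ⟨rfl, ⟨hz0, hz1⟩, h1, h2, hz2⟩)⟩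
  -- uniqueness in a zone
  have huniq : ∀ p x x', T p x → T p x' → x ≠ 0 → x' ≠ 0 → H x = 0 → H x' = 0 → ¬ x < x' := by
    intro p x x' hp hp' hx0 hx0' hz hz' hlt
    have hx1 := hlt1 x hz
    have hx1' := hlt1 x' hz'
    have hab : ∀ ξ, x < ξ → ξ < x' → |ξ| ≤ 1 := fun ξ a b =>
      abs_le.2 ⟨by linarith [(abs_lt.1 hx1).1], by linarith [(abs_lt.1 hx1').2]⟩
    rcases hp with ⟨i0, ⟨z0, z1⟩, a1, a2⟩ | ⟨i0, ⟨z0, z1⟩, a1, a2, a3⟩ | ⟨i0, a1, a2⟩
    · rcases hp' with ⟨-, -, b1, b2⟩ | ⟨j0, -⟩ | ⟨j0, -⟩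
      · obtain ⟨ξ, hξ, hd⟩ := exists_hasDerivAt_eq_zero hlt
          (fun w _ => (hder w).continuousAt.continuousWithinAt) (hz.trans hz'.symm)
          (fun w _ => hder w)
        refine hA ξ ?_ ((k2 p.2 z0 z1).2 ξ ?_) hd
        · rw [abs_le] at *; exact ⟨by linarith [hξ.1], by linarith [hξ.2]⟩
        · rw [abs_lt] at *; exact ⟨by linarith [hξ.1], by linarith [hξ.2]⟩
      · omega
      · rw [j0] at i0; norm_num at i0
    · rcases hp' with ⟨j0, -⟩ | ⟨-, -, b1, b2, b3⟩ | ⟨j0, -⟩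
      · omega
      · obtain ⟨ξ, hξ, hd⟩ := exists_hasDerivAt_eq_zero hlt
          (fun w _ => (hder w).continuousAt.continuousWithinAt) (hz.trans hz'.symm)
          (fun w _ => hder w)
        have m1 : x ^ r < ξ ^ r := hmono hξ.1
        have m2 : ξ ^ r < x' ^ r := hmono hξ.2
        have hδz := (k2 p.2 z0 z1).1
        have hξz : |ξ ^ r - p.2| < δ := by
          rw [abs_lt] at *; exact ⟨by linarith, by linarith⟩
        have hξ0 : δ0 < |ξ ^ r| := by
          rcases lt_or_gt_of_ne z0 with hn | hp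
          · rw [abs_of_neg hn] at hδz
            have q : x' ^ r < 0 := by have := (abs_lt.1 b3).2; linarith
            rw [abs_of_neg q] at b2
            rw [abs_of_neg (by linarith)]; linarith
          · rw [abs_of_pos hp] at hδz
            have q : 0 < x ^ r := by have := (abs_lt.1 a3).1; linarith
            rw [abs_of_pos q] at a2
            rw [abs_of_pos (by linarith)]; linarith
        have hξne : ξ ≠ 0 := by
          rintro rfl
          rw [zero_pow r0, abs_zero] at hξ0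
          linarith
        exact hC ξ hξne (hab ξ hξ.1 hξ.2) hξ0 ((k2 p.2 z0 z1).2 _ hξz) hd
      · rw [j0] at i0; norm_num at i0
    · rcases hp' with ⟨j0, -⟩ | ⟨j0, -⟩ | ⟨-, b1, b2⟩
      · rw [i0] at j0; norm_num at j0
      · rw [i0] at j0; norm_num at j0
      · -- both zeros are on the side of the sign of `g' 0`
        have sg : ∀ w, H w = 0 → 1 - δ1 < |w| → |w ^ r| ≤ δ0 → 0 < g' 0 * w ^ r := by
          intro w hw h1 h2
          have h3 := heq w hw
          have h4 := k1 w h1.le (hlt1 w hw).le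
          have h5 : 0 < g (w ^ r) := by
            by_contra hcon
            have := mul_nonpos_of_nonneg_of_nonpos rp.le (not_lt.1 hcon)
            linarith
          exact (near_est n1 n2 h2 h5).1
        have s1 := sg x hz a1 a2
        have s2 := sg x' hz' b1 b2
        have hpow : ∀ w : ℝ, (0 < w ^ r ↔ 0 < w) := fun w => by
          have := hmono.lt_iff_lt (a := 0) (b := w)
          simpa [r0] using this
        have hpow' : ∀ w : ℝ, (w ^ r < 0 ↔ w < 0) := fun w => by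
          have := hmono.lt_iff_lt (a := w) (b := 0)
          simpa [r0] using this
        -- all points between
        have hbet : ∀ ξ, x ≤ ξ → ξ ≤ x' → 1 - δ1 < |ξ| ∧ |ξ| ≤ 1 ∧ |ξ ^ r| ≤ δ0 ∧
            0 < g' 0 * ξ ^ r := by
          intro ξ q1 q2
          have m1 : x ^ r ≤ ξ ^ r := hmono.monotone q1
          have m2 : ξ ^ r ≤ x' ^ r := hmono.monotone q2
          have q3 : |ξ| ≤ 1 :=
            abs_le.2 ⟨by linarith [(abs_lt.1 hx1).1], by linarith [(abs_lt.1 hx1').2]⟩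
          have q4 : |ξ ^ r| ≤ δ0 :=
            abs_le.2 ⟨by linarith [(abs_le.1 a2).1], by linarith [(abs_le.1 b2).2]⟩
          rcases lt_or_gt_of_ne h.tau with ht | ht
          · have u1 : x ^ r < 0 := by by_contra hcon; nlinarith [not_lt.1 hcon]
            have u2 : x' ^ r < 0 := by by_contra hcon; nlinarith [not_lt.1 hcon]
            have v2 := (hpow' x').1 u2
            have v1 : ξ < 0 := by linarith
            refine ⟨?_, q3, q4, mul_pos_of_neg_of_neg ht ((hpow' ξ).2 v1)⟩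
            rw [abs_of_neg v2] at b1
            rw [abs_of_neg v1]; linarith
          · have u1 : 0 < x ^ r := by by_contra hcon; nlinarith [not_lt.1 hcon]
            have v1 := (hpow x).1 u1
            have v2 : 0 < ξ := by linarith
            refine ⟨?_, q3, q4, mul_pos ht ((hpow ξ).2 v2)⟩
            rw [abs_of_pos v1] at a1
            rw [abs_of_pos v2]; linarith
        have hgpos : ∀ ξ, x ≤ ξ → ξ ≤ x' → c / 2 ≤ g ξ := fun ξ q1 q2 =>
          k1 ξ (hbet ξ q1 q2).1.le (hbet ξ q1 q2).2.1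
        have hFd : ∀ ξ, x ≤ ξ → ξ ≤ x' → HasDerivAt (fun w => g (w ^ r) / g w)
            ((g' (ξ ^ r) * (r * ξ ^ (r - 1)) * g ξ - g (ξ ^ r) * g' ξ) / g ξ ^ 2) ξ := by
          intro ξ q1 q2
          have := hgpos ξ q1 q2
          exact ((h.der (ξ ^ r)).comp ξ (hasDerivAt_pow r ξ)).div (h.der ξ) (by linarith)
        have hF : ∀ w, H w = 0 → x ≤ w → w ≤ x' → g (w ^ r) / g w = 1 / r := by
          intro w hw q1 q2
          have h3 := heq w hw
          have h4 := hgpos w q1 q2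
          rw [div_eq_div_iff (by linarith) rp.ne', ← h3]; ring
        obtain ⟨ξ, hξ, hd⟩ := exists_hasDerivAt_eq_zero hlt
          (f := fun w => g (w ^ r) / g w)
          (f' := fun ξ => (g' (ξ ^ r) * (r * ξ ^ (r - 1)) * g ξ - g (ξ ^ r) * g' ξ) / g ξ ^ 2)
          (fun w hw => (hFd w hw.1 hw.2).continuousAt.continuousWithinAt)
          ((hF x hz le_rfl hlt.le).trans (hF x' hz' hlt.le le_rfl).symm)
          (fun w hw => hFd w hw.1.le hw.2.le)
        obtain ⟨w1, w2, w3, w4⟩ := hbet ξ hξ.1.le hξ.2.le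
        have w5 := hgpos ξ hξ.1.le hξ.2.le
        have w6 := near_pos n1 n2 w3 w4
        have w7 := (near_est n1 n2 w3 w6).2
        have w8 : g' (ξ ^ r) * (r * ξ ^ (r - 1)) * g ξ - g (ξ ^ r) * g' ξ = 0 := by
          have h9 : g ξ ^ 2 ≠ 0 := by
            have : 0 < g ξ := by linarith
            positivity
          simpa [h9] using hd
        have w9 : r * (ξ ^ r * g' (ξ ^ r)) * g ξ = g (ξ ^ r) * (ξ * g' ξ) := by
          have e : ξ * ξ ^ (r - 1) = ξ ^ r := mul_pow_sub_one r0 ξ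
          linear_combination ξ * w8 - g' (ξ ^ r) * r * g ξ * e
        have w10 := (abs_le.1 (hxg ξ w2)).2
        have w11 : r * (1 / 2 * g (ξ ^ r)) * (c / 2) ≤ r * (ξ ^ r * g' (ξ ^ r)) * g ξ := by
          have u1 : r * (1 / 2 * g (ξ ^ r)) ≤ r * (ξ ^ r * g' (ξ ^ r)) :=
            mul_le_mul_of_nonneg_left w7 rp.le
          exact mul_le_mul u1 w5 (by positivity) (le_trans (by positivity) u1)
        have w12 : g (ξ ^ r) * (ξ * g' ξ) ≤ g (ξ ^ r) * M := mul_le_mul_of_nonneg_left w10 w6.le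
        have w13 : g (ξ ^ r) * (r * (c / 4)) ≤ g (ξ ^ r) * M := by
          have : r * (1 / 2 * g (ξ ^ r)) * (c / 2) = g (ξ ^ r) * (r * (c / 4)) := by ring
          linarith
        have := le_of_mul_le_mul_left w13 w6
        linarith
  -- the count
  choose! f hf using hloc
  set S : Set ℝ := {x | x ≠ 0 ∧ H x = 0} with hS
  set I : Finset (ℕ × ℝ) := (({0, 1} : Finset ℕ) ×ˢ h.fin.toFinset) ∪ {(2, 0)} with hI
  have hmaps : Set.MapsTo f S I := by
    intro x hx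
    rcases hf x hx.1 hx.2 with ⟨i0, hz, -⟩ | ⟨i0, hz, -⟩ | ⟨i0, -⟩
    · rw [hI, Finset.coe_union]
      left
      rw [Finset.mem_coe, Finset.mem_product]
      exact ⟨by rw [i0]; simp, by simpa using hz⟩
    · rw [hI, Finset.coe_union]
      left
      rw [Finset.mem_coe, Finset.mem_product]
      exact ⟨by rw [i0]; simp, by simpa using hz⟩
    · rw [hI, Finset.coe_union]
      right
      rw [i0]; simp
  have hinj : Set.InjOn f S := by
    intro x hx x' hx' he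
    have t1 := hf x hx.1 hx.2
    have t2 := hf x' hx'.1 hx'.2
    rw [← he] at t2
    rcases lt_trichotomy x x' with hl | hl | hl
    · exact absurd hl (huniq _ x x' t1 t2 hx.1 hx'.1 hx.2 hx'.2)
    · exact hl
    · exact absurd hl (huniq _ x' x t2 t1 hx'.1 hx.1 hx'.2 hx.2)
  have hIc : I.card ≤ 2 * N + 1 := by
    refine (Finset.card_union_le _ _).trans ?_
    rw [Finset.card_product, Finset.card_singleton]
    have h1 : ({0, 1} : Finset ℕ).card = 2 := by decide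
    have h2 : h.fin.toFinset.card ≤ N := by
      rw [← Set.ncard_eq_toFinset_card _ h.fin]; exact h.card
    rw [h1]; omega
  have hSf : S.Finite := Set.Finite.of_injOn hmaps hinj I.finite_toSet
  refine ⟨hder, ?_, ?_, ?_, ⟨r * c - C, r * C, by linarith, hbig⟩, hSf, ?_, ?_⟩
  · have := h.cont
    fun_prop
  · show r * g (0 ^ r) - g 0 = 0
    rw [zero_pow r0, h.zero]; ring
  · show r * (g' (0 ^ r) * (r * 0 ^ (r - 1))) - g' 0 ≠ 0
    rw [zero_pow (show r - 1 ≠ 0 by omega)]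
    simpa using h.tau
  · refine le_trans ?_ hIc
    rw [← Set.ncard_coe_finset I]
    exact Set.ncard_le_ncard_of_injOn f hmaps hinj I.finite_toSet
  · intro x hx hz
    have hx1 := (hlt1 x hz).le
    rcases hf x hx hz with ⟨-, ⟨z0, z1⟩, a1, a2⟩ | ⟨-, ⟨z0, z1⟩, a1, a2, a3⟩ | ⟨-, a1, a2⟩
    · exact hA x a1 ((k2 _ z0 z1).2 x a2)
    · exact hC x hx hx1 a2 ((k2 _ z0 z1).2 _ a3)
    · exact hB x hx1 a1 a2 hz

end Pool.Agent.KS6_64.CY
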