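import Mathlib

/-!
# The zeros of `r g(x^r) - g(x)` for large odd `r`
-/

set_option autoImplicit false

namespace Pool.Agent.KS6_64.CY

open Filter Topology

/-- `g` is `C¹` with derivative `g'`, has a simple zero at `0`, is between two positive constants
on `|x| ≥ 1`, and has at most `N` further zeros, all of them simple. -/
structure UP (g g' : ℝ → ℝ) (N : ℕ) : Prop where
  der : ∀ x, HasDerivAt g (g' x) x
  cont : Continuous g'
  zero : g 0 = 0
  tau : g' 0 ≠ 0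
  big : ∃ c C : ℝ, 0 < c ∧ ∀ x, 1 ≤ |x| → c ≤ g x ∧ g x ≤ C
  fin : {x | x ≠ 0 ∧ g x = 0}.Finite
  card : {x | x ≠ 0 ∧ g x = 0}.ncard ≤ N
  simple : ∀ x, x ≠ 0 → g x = 0 → g' x ≠ 0

variable {g g' : ℝ → ℝ} {N : ℕ}

theorem UP.gcont (h : UP g g' N) : Continuous g :=
  continuous_iff_continuousAt.2 fun x => (h.der x).continuousAt

theorem UP.bound (h : UP g g' N) : ∃ M : ℝ, 0 < M ∧ (∀ x, |x| ≤ 1 → |g' x| ≤ M) ∧
    ∀ x, |x| ≤ 1 → |g x| ≤ M * |x| := by
  obtain ⟨M, hM⟩ := (isCompact_Icc (a := (-1 : ℝ)) (b := 1)).exists_bound_of_continuousOn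
    h.cont.continuousOn
  have h1 : ∀ x, |x| ≤ 1 → |g' x| ≤ max M 1 := fun x hx =>
    (hM x (Set.mem_Icc.2 (abs_le.1 hx))).trans (le_max_left _ _)
  refine ⟨max M 1, lt_of_lt_of_le one_pos (le_max_right _ _), h1, fun x hx => ?_⟩
  have h2 := Convex.norm_image_sub_le_of_norm_hasDerivWithin_le (s := Set.Icc (-1 : ℝ) 1)
    (f := g) (f' := g') (C := max M 1) (x := 0) (y := x)
    (fun x _ => (h.der x).hasDerivWithinAt) (fun x hx => h1 x (abs_le.2 hx)) (convex_Icc _ _)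
    (by constructor <;> norm_num) (Set.mem_Icc.2 (abs_le.1 hx))
  simpa [h.zero] using h2

theorem UP.near0 (h : UP g g' N) : ∃ δ : ℝ, 0 < δ ∧ δ < 1 ∧
    (∀ x, |x| ≤ δ → |g' x - g' 0| ≤ |g' 0| / 4) ∧
    ∀ x, |x| ≤ δ → |g x - g' 0 * x| ≤ |g' 0| / 4 * |x| := by
  have hpos : 0 < |g' 0| / 4 := by have := abs_pos.2 h.tau; linarith
  obtain ⟨δ, hδ, h1⟩ := Metric.continuousAt_iff.1 (h.cont.continuousAt (x := 0)) _ hpos
  refine ⟨min (δ / 2) (1 / 2), by positivity, (min_le_right _ _).trans_lt (by norm_num), ?_⟩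
  have h2 : ∀ x, |x| ≤ min (δ / 2) (1 / 2) → |g' x - g' 0| ≤ |g' 0| / 4 := by
    intro x hx
    have h3 : |x| < δ := by
      have := hx.trans (min_le_left _ _); linarith
    have h4 := h1 (x := x) (by rwa [Real.dist_eq, sub_zero])
    rw [Real.dist_eq] at h4
    exact h4.le
  refine ⟨h2, fun x hx => ?_⟩
  set δ' := min (δ / 2) (1 / 2) with hδ'
  have h5 := Convex.norm_image_sub_le_of_norm_hasDerivWithin_le (s := Set.Icc (-δ') δ')
    (f := fun x => g x - g' 0 * x) (f' := fun x => g' x - g' 0) (C := |g' 0| / 4) (x := 0) (y := x)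
    (fun x _ => ((h.der x).sub (by simpa using (hasDerivAt_id x).const_mul (g' 0))).hasDerivWithinAt)
    (fun x hx => h2 x (abs_le.2 hx)) (convex_Icc _ _)
    (by have : 0 ≤ δ' := by positivity
        constructor <;> linarith) (Set.mem_Icc.2 (abs_le.1 hx))
  simpa [h.zero] using h5

theorem UP.near1 (h : UP g g' N) {c C : ℝ} (hc : 0 < c)
    (hb : ∀ x, 1 ≤ |x| → c ≤ g x ∧ g x ≤ C) :
    ∃ δ : ℝ, 0 < δ ∧ δ < 1 ∧ ∀ x, 1 - δ ≤ |x| → |x| ≤ 1 → c / 2 ≤ g x := by
  have h1 : c / 2 < g 1 := by have := (hb 1 (by simp)).1; linarith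
  have h2 : c / 2 < g (-1) := by have := (hb (-1) (by simp)).1; linarith
  obtain ⟨a, ha, h3⟩ := Metric.mem_nhds_iff.1 (h.gcont.continuousAt.eventually (lt_mem_nhds h1))
  obtain ⟨b, hb', h4⟩ := Metric.mem_nhds_iff.1 (h.gcont.continuousAt.eventually (lt_mem_nhds h2))
  refine ⟨min (min (a / 2) (b / 2)) (1 / 2), by positivity,
    (min_le_right _ _).trans_lt (by norm_num), fun x hx hx1 => ?_⟩
  have q1 : 1 - |x| ≤ a / 2 := by
    have := (min_le_left (min (a / 2) (b / 2)) (1 / 2)).trans (min_le_left _ _); linarith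
  have q2 : 1 - |x| ≤ b / 2 := by
    have := (min_le_left (min (a / 2) (b / 2)) (1 / 2)).trans (min_le_right _ _); linarith
  rcases le_total 0 x with h0 | h0
  · rw [abs_of_nonneg h0] at *
    have : x ∈ Metric.ball (1 : ℝ) a := by
      rw [Metric.mem_ball, Real.dist_eq, abs_sub_comm, abs_of_nonneg (by linarith)]; linarith
    exact (h3 this).le
  · rw [abs_of_nonpos h0] at *
    have : x ∈ Metric.ball (-1 : ℝ) b := by
      rw [Metric.mem_ball, Real.dist_eq, abs_of_nonneg (by linarith)]; linarith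
    exact (h4 this).le

theorem UP.nearZ (h : UP g g' N) : ∃ γ δ : ℝ, 0 < γ ∧ 0 < δ ∧
    ∀ z, z ≠ 0 → g z = 0 → δ < |z| ∧ ∀ x, |x - z| < δ → γ ≤ |g' x| := by
  classical
  have key : ∀ T : Finset ℝ, (∀ z ∈ T, z ≠ 0 ∧ g z = 0) → ∃ γ δ : ℝ, 0 < γ ∧ 0 < δ ∧
      ∀ z ∈ T, δ < |z| ∧ ∀ x, |x - z| < δ → γ ≤ |g' x| := by
    intro T
    induction T using Finset.induction_on with
    | empty => intro _; exact ⟨1, 1, one_pos, one_pos, by simp⟩
    | insert z T _ ih =>
      intro hT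
      obtain ⟨γ, δ, hγ, hδ, h1⟩ := ih fun w hw => hT w (Finset.mem_insert_of_mem hw)
      obtain ⟨hz0, hz⟩ := hT z (Finset.mem_insert_self _ _)
      have hp : 0 < |g' z| := abs_pos.2 (h.simple z hz0 hz)
      have hp2 : |g' z| / 2 < |g' z| := by linarith
      obtain ⟨a, ha, h2⟩ := Metric.mem_nhds_iff.1
        ((h.cont.abs.continuousAt (x := z)).eventually (lt_mem_nhds hp2))
      have hz' : 0 < |z| := abs_pos.2 hz0
      refine ⟨min γ (|g' z| / 2), min δ (min a (|z| / 2)), by positivity, by positivity, ?_⟩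
      intro w hw
      rcases Finset.mem_insert.1 hw with rfl | hw
      · refine ⟨?_, fun x hx => ?_⟩
        · have := (min_le_right δ (min a (|w| / 2))).trans (min_le_right _ _); linarith
        · have hx' : x ∈ Metric.ball w a := by
            rw [Metric.mem_ball, Real.dist_eq]
            exact hx.trans_le ((min_le_right _ _).trans (min_le_left _ _))
          exact (min_le_right _ _).trans (h2 hx').le
      · obtain ⟨q1, q2⟩ := h1 w hw
        exact ⟨(min_le_left _ _).trans_lt q1, fun x hx =>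
          (min_le_left _ _).trans (q2 x (hx.trans_le (min_le_left _ _)))⟩
  obtain ⟨γ, δ, hγ, hδ, h1⟩ := key h.fin.toFinset (by
    intro z hz
    simpa using hz)
  exact ⟨γ, δ, hγ, hδ, fun z hz0 hz => h1 z (by simpa using ⟨hz0, hz⟩)⟩

theorem UP.near (h : UP g g' N) {δ : ℝ} (hδ : 0 < δ) : ∃ ε : ℝ, 0 < ε ∧ ∀ x, x ≠ 0 → |x| ≤ 1 →
    |g x| ≤ ε * |x| → ∃ z, z ≠ 0 ∧ g z = 0 ∧ |x - z| < δ := by
  obtain ⟨δ0, h0, -, -, h1⟩ := h.near0
  have ht : 0 < |g' 0| := abs_pos.2 h.tau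
  set K : Set ℝ := {x | |x| ≤ 1 ∧ δ0 ≤ |x|} ∩ ⋂ z ∈ {x | x ≠ 0 ∧ g x = 0}, {x | δ ≤ |x - z|} with hK
  have hKc : IsCompact K := by
    refine (isCompact_Icc (a := (-1 : ℝ)) (b := 1)).of_isClosed_subset ?_ ?_
    · refine IsClosed.inter (IsClosed.inter ?_ ?_) (isClosed_biInter fun z _ => ?_)
      · exact isClosed_le continuous_abs continuous_const
      · exact isClosed_le continuous_const continuous_abs
      · exact isClosed_le continuous_const (by fun_prop)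
    · intro x hx
      exact Set.mem_Icc.2 (abs_le.1 hx.1.1)
  have hmem : ∀ x, x ≠ 0 → |x| ≤ 1 → δ0 ≤ |x| → (¬ ∃ z, z ≠ 0 ∧ g z = 0 ∧ |x - z| < δ) → x ∈ K := by
    intro x hx hx1 hx2 hn
    refine ⟨⟨hx1, hx2⟩, Set.mem_iInter₂.2 fun z hz => ?_⟩
    by_contra hcon
    exact hn ⟨z, hz.1, hz.2, not_le.1 hcon⟩
  obtain ⟨m, hm, h2⟩ : ∃ m : ℝ, 0 < m ∧ ∀ x ∈ K, m ≤ |g x| := by
    rcases K.eq_empty_or_nonempty with he | hne
    · exact ⟨1, one_pos, by simp [he]⟩
    · obtain ⟨x, hx, hmin⟩ := hKc.exists_isMinOn hne h.gcont.abs.continuousOn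
      refine ⟨|g x|, abs_pos.2 fun h3 => ?_, fun y hy => hmin hy⟩
      have hx0 : x ≠ 0 := by
        rintro rfl
        have := hx.1.2
        rw [abs_zero] at this
        linarith
      have h4 := Set.mem_iInter₂.1 hx.2 x ⟨hx0, h3⟩
      have h5 : δ ≤ |x - x| := h4
      rw [sub_self, abs_zero] at h5
      linarith
  refine ⟨min (|g' 0| / 2) (m / 2), by positivity, fun x hx hx1 hle => ?_⟩
  by_contra hn
  have hxp : 0 < |x| := abs_pos.2 hx
  rcases lt_or_ge |x| δ0 with h3 | h3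
  · have h4 := h1 x h3.le
    have h5 : |g' 0| * |x| - |g x| ≤ |g' 0| / 4 * |x| := by
      rw [← abs_mul]
      have := abs_sub_abs_le_abs_sub (g' 0 * x) (g x)
      rw [abs_sub_comm] at this
      linarith
    have h6 : min (|g' 0| / 2) (m / 2) * |x| ≤ |g' 0| / 2 * |x| :=
      mul_le_mul_of_nonneg_right (min_le_left _ _) hxp.le
    nlinarith
  · have h4 := h2 x (hmem x hx hx1 h3 hn)
    have h6 : min (|g' 0| / 2) (m / 2) * |x| ≤ m / 2 * 1 := by
      apply mul_le_mul (min_le_right _ _) hx1 hxp.le (by positivity)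
    linarith

end Pool.Agent.KS6_64.CY
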